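import Pool.Agent.MP_3ce0a0_al.H76.RBD

/-! Centralisers act on the components of a fixed subgraph. -/

namespace Pool.Agent.MP_3ce0a0_al.H16

open Pool.Agent.MP_3ce0a0_al.H79 Pool.Agent.MP_3ce0a0_al.H76

section act
variable {A : Type} [Group A] (N : Subgroup A) [hN : N.Normal]

/-- conjugacy by elements of `N` -/
def cs : Setoid A where
  r a b := ∃ i ∈ N, b = i * a * i⁻¹
  iseqv := ⟨fun a => ⟨1, N.one_mem, by simp⟩,
    fun ⟨i, h, e⟩ => ⟨i⁻¹, N.inv_mem h, by rw [e]; group⟩,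
    fun ⟨i, h, e⟩ ⟨j, h', e'⟩ => ⟨j * i, N.mul_mem h' h, by rw [e', e]; group⟩⟩

instance : MulAction A (Quotient (cs N)) where
  smul γ := Quotient.map (fun a => γ * a * γ⁻¹)
    fun _ _ ⟨i, h, e⟩ => ⟨γ * i * γ⁻¹, hN.conj_mem i h γ, by rw [e]; group⟩
  one_smul x := x.inductionOn fun a => congrArg (Quotient.mk _) (by simp)
  mul_smul a b x := x.inductionOn fun c => congrArg (Quotient.mk _) (by group)

/-- the action of the quotient group on the classes -/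
def act : A ⧸ N →* Equiv.Perm (Quotient (cs N)) :=
  QuotientGroup.lift N (MulAction.toPermHom A _) fun i hi => Equiv.ext fun x =>
    x.inductionOn fun _ => (Quotient.sound (s := cs N) ⟨i, hi, rfl⟩).symm

theorem act_mk (γ a : A) : act N (γ : A ⧸ N) ⟦a⟧ = ⟦γ * a * γ⁻¹⟧ := rfl

end act

theorem src (h1 : SFix) (h2 : SComp) : SRC := by
  intro G _ _ m π ψ ι V Ed V' Ed' _ _ _ _ _ _ o t side o' t' pv pe p j _ c g
  obtain ⟨hι, -, hT, -, hQ, ev, ee, -⟩ := id c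
  have zp : ∀ {k : PB ψ} {w : V}, k • w = w → ∀ k' ∈ Subgroup.zpowers k, k' • w = w := fun h _ hk' =>
    (Subgroup.zpowers_le (H := MulAction.stabilizer _ _)).2 h hk'
  have key : ∀ (k k' : PB ψ) (w w' : V), k.1.1 = g → k'.1.1 = g → k • w = w → k' • w' = w' →
      ((⟦k.1.2⟧ : Quotient (cs (Inn (FG m)))) = ⟦k'.1.2⟧ ↔
        Lnk o' t' (fun e => g • e = e) (pv w) (pv w')) := fun k k' w w' a a' b b' => by
    constructor
    · intro h
      obtain ⟨_, ⟨x, rfl⟩, e⟩ := Quotient.exact h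
      have e1 : k' = ι x * k * (ι x)⁻¹ := Subtype.ext (Prod.ext (by simp [hι, a, a']) (by
        simp only [e, hι, Subgroup.coe_mul, Subgroup.coe_inv, Prod.snd_mul, Prod.snd_inv]))
      have l := (h1 _ V Ed o t side hT).2 (Subgroup.zpowers k) w ((ι x)⁻¹ • w') (zp b) (zp (by
        rw [eq_inv_smul_iff, ← mul_smul, ← mul_smul, ← e1, b']))
      rw [← (hQ.2.2.1 ((ι x)⁻¹ • w') w').2 ⟨_, ⟨x, rfl⟩, smul_inv_smul _ _⟩]
      refine l.lift pv ?_
      rintro u v ⟨d, hd, h⟩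
      refine ⟨pe d, show g • pe d = pe d by rw [← a, ← ee, hd k (Subgroup.mem_zpowers k)], ?_⟩
      rw [hQ.2.2.2.2.1, hQ.2.2.2.2.2]
      exact h.imp (fun h => ⟨by rw [h.1], by rw [h.2]⟩) fun h => ⟨by rw [h.1], by rw [h.2]⟩
    · intro h
      obtain ⟨w₀, e₀, h₀⟩ := (comp h2 c (Subgroup.zpowers k) w (zp b) _ fun e =>
        ⟨fun f k' hk' => (Subgroup.zpowers_le (H := (MulAction.stabilizer G e).comap (qq ψ))).2
          (show k.1.1 • e = e from a ▸ f) hk', fun f => a ▸ f k (Subgroup.mem_zpowers k)⟩).1 _ h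
      obtain ⟨_, ⟨y, rfl⟩, rfl⟩ := (hQ.2.2.1 w₀ w').1 e₀
      rw [lift_uniq c (k := k') (k' := ι y * k * (ι y)⁻¹) (by simp [hι, a, a']) b'
        (by rw [mul_smul, inv_smul_smul, mul_smul, h₀ k (Subgroup.mem_zpowers k)])]
      exact Quotient.sound ⟨_, ⟨y, rfl⟩, by
        simp only [hι, Subgroup.coe_mul, Subgroup.coe_inv, Prod.snd_mul, Prod.snd_inv]⟩
  choose s hs using hQ.1
  choose κ k1 k2 using fun v : {v : V' // g • v = v} =>
    lift_fix c (g := g) (v := s v.1) (by rw [hs, v.2])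
  let q : {v : V' // g • v = v} → Quotient (cs (Inn (FG m))) := fun v => ⟦(κ v).1.2⟧
  have hq : ∀ (k : PB ψ) (w : V) (v : {v : V' // g • v = v}), k.1.1 = g → k • w = w → pv w = v.1 →
      ⟦k.1.2⟧ = q v := fun k w v a b e =>
    (key k _ w _ a (k1 v) b (k2 v)).2 (by rw [hs, e]; exact .refl)
  let _ : MulAction (Subgroup.centralizer {ψ g}) (Quotient (cs (Inn (FG m)))) :=
    MulAction.compHom _ ((act (Inn (FG m))).comp (Subgroup.centralizer {ψ g}).subtype)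
  let S : SubMulAction (Subgroup.centralizer {ψ g}) (Quotient (cs (Inn (FG m)))) :=
    ⟨Set.range q, by
      rintro ⟨θ, hθ⟩ _ ⟨v, rfl⟩
      obtain ⟨γ, rfl⟩ := QuotientGroup.mk_surjective θ
      let k : PB ψ := ⟨(g, γ * (κ v).1.2 * γ⁻¹), by
        show ψ g = QuotientGroup.mk (γ * (κ v).1.2 * γ⁻¹)
        rw [QuotientGroup.mk_mul, QuotientGroup.mk_mul, QuotientGroup.mk_inv, ← pb_mk, k1,
          ← hθ _ rfl, mul_inv_cancel_right]⟩
      have e : κ v ^ orderOf g = 1 := lift_uniq c (by simp [k1])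
        (zp (k2 v) _ (Subgroup.npow_mem_zpowers _ _)) (one_smul _ _)
      have f : IsOfFinOrder k := isOfFinOrder_iff_pow_eq_one.2 ⟨_, orderOf_pos g,
        Subtype.ext (Prod.ext (pow_orderOf_eq_one g) (by
          change (γ * (κ v).1.2 * γ⁻¹) ^ _ = 1
          rw [conj_pow, show (κ v).1.2 ^ orderOf g = 1 from congrArg (fun z : PB ψ => z.1.2) e]
          simp))⟩
      obtain ⟨w, hw⟩ := (h1 _ V Ed o t side hT).1 _ f.finite_zpowers
      have hw := hw k (Subgroup.mem_zpowers k)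
      exact ⟨⟨pv w, (ev k w).symm.trans (congrArg pv hw)⟩, (hq k w _ rfl hw rfl).symm⟩⟩
  refine ⟨S, (Set.finite_range q).to_subtype, fun v => ⟨q v, v, rfl⟩, MulAction.toPermHom _ S,
    fun ⟨_, v, e⟩ => ⟨v, Subtype.ext e⟩, fun u v => ?_, fun d hd cm v hv hv' => Subtype.ext ?_⟩
  · rw [Subtype.ext_iff, ← hs u.1, ← hs v.1]
    exact key _ _ _ _ (k1 u) (k1 v) (k2 u) (k2 v)
  · obtain ⟨k, rfl⟩ := qq_surj (ψ := ψ) d
    change act _ (ψ k.1.1) ⟦_⟧ = q _
    rw [pb_mk, act_mk]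
    exact hq (k * κ ⟨v, hv⟩ * k⁻¹) (k • s v) _ (by simp [k1, cm.eq])
      (by rw [mul_smul, inv_smul_smul, mul_smul, k2 ⟨v, hv⟩]) (by rw [ev, hs])

end Pool.Agent.MP_3ce0a0_al.H16
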