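import Pool.Agent.MP_3ce0a0_al.H79.SpecS
import Pool.Agent.MP_3ce0a0_al.H41.X

/-! The sharper Lefschetz count on the graph realising the cage group. -/

namespace Pool.Agent.MP_3ce0a0_al.H16

open Equiv Finset
open Pool.Agent.MP_3ce0a0_al.H79 Pool.Agent.MP_3ce0a0_al.H41

section perm
variable {A : Type} [Fintype A] [DecidableEq A]

/-- number of fixed points -/
def nf (g : Perm A) : ℕ := (univ.filter fun a => g a = a).card

theorem nf_conj (τ g : Perm A) : nf (τ * g * τ⁻¹) = nf g :=
  (card_equiv τ fun a => by rw [mem_filter, mem_filter]; simp).symm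

theorem nf_add (g c d : Perm A) (h : Perm.Disjoint c d) :
    nf (g * c) + nf (g * d) = nf (g * d * c) + nf g := by
  unfold nf
  rw [card_filter, card_filter, card_filter, card_filter, ← sum_add_distrib, ← sum_add_distrib]
  refine sum_congr rfl fun a _ => ?_
  by_cases e : c a = a
  · rw [add_comm]
    congr 1 <;> exact if_congr (by simp [e]) rfl rfl
  · congr 1 <;> exact if_congr
      (by simp [(h a).resolve_left e, (h (c a)).resolve_left fun f => e (c.injective f)]) rfl rfl

theorem pick (g : Perm (Option A)) (hg : ∀ x, g x ≠ x) (T : Finset A)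
    (hT : 2 * T.card + 2 ≤ Fintype.card A) (h2 : T.card + 3 ≤ Fintype.card A) :
    ∃ (c : Perm A) (S : Finset A), Perm.sign c = 1 ∧ S.card ≤ 3 ∧ (∀ a ∈ T, c a = a) ∧
      (∀ a ∉ S, c a = a) ∧ ∃ a, g (some (c a)) = some a := by
  obtain ⟨y, -, hy⟩ := exists_mem_notMem_of_card_lt_card
    (s := insertNone T ∪ (insertNone T).map g.symm.toEmbedding) (t := univ)
    ((card_union_le _ _).trans_lt (by simp; omega))
  simp only [mem_union, mem_map_equiv, symm_symm, not_or] at hy
  obtain ⟨b, rfl⟩ := Option.ne_none_iff_exists'.1 fun h : y = none => hy.1 (h ▸ none_mem_insertNone)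
  obtain ⟨a, ha⟩ := Option.ne_none_iff_exists'.1 fun h : g (some b) = none =>
    hy.2 (h ▸ none_mem_insertNone)
  rw [ha, some_mem_insertNone, some_mem_insertNone] at hy
  obtain ⟨d, -, hd⟩ := exists_mem_notMem_of_card_lt_card (s := insert a (insert b T)) (t := univ)
    ((card_insert_le _ _).trans_lt (by have := card_insert_le b T; simp; omega))
  simp only [mem_insert, not_or] at hd
  have ab : a ≠ b := fun h => hg (some b) (by rw [ha, h])
  have k : ∀ x, x ≠ a → x ≠ b → x ≠ d → (swap a d * swap a b) x = x := fun x h1 h2 h3 => by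
    rw [Perm.mul_apply, swap_apply_of_ne_of_ne h1 h2, swap_apply_of_ne_of_ne h1 h3]
  refine ⟨swap a d * swap a b, {a, b, d}, by simp [ab, Ne.symm hd.1], card_le_three,
    fun x hx => k x (fun h => hy.2 (h ▸ hx)) (fun h => hy.1 (h ▸ hx)) fun h => hd.2.2 (h ▸ hx),
    fun x hx => ?_, a, ?_⟩
  · simp only [mem_insert, mem_singleton, not_or] at hx
    exact k x hx.1 hx.2.1 hx.2.2
  · rw [Perm.mul_apply, swap_apply_left, swap_apply_of_ne_of_ne ab.symm (Ne.symm hd.2.1), ha]

end perm

theorem sx2 (h1 : SConn2) (h2 : SGr) (h3 : SLef) : SX2 := by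
  intro A G V E _ _ _ _ _ _ _ m π ψ o t j w ξ k h r sV sE hε hc hξ hA hD hV hE h12 hkA hfin htr hz
  obtain ⟨ao, at', hne, hcon, -, hinj, hrng, heq, -⟩ := hA
  have hcard : Fintype.card (Option A) = Fintype.card A + 1 := Fintype.card_option
  have hsub := (h1 (Option A) V E o t _ _ k sV sE (by omega)
    ⟨fun σ e => ao (w.π σ) e, fun σ e => at' (w.π σ) e, fun a e => ao (w.ε a) e,
      fun a e => at' (w.ε a) e⟩ hV hE hcon).1
  let R : G →* Module.End ℂ (HV m) :=
    LinearEquiv.automorphismGroup.toLinearMapMonoidHom.comp (π.comp ψ)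
  let F := fun g => LinearMap.trace ℂ (HV m) (R (ξ * w.π g))
  have f1 : ∀ (g : Perm (Option A)) x, Perm.sign g = 1 → g x = x → F g = h + r - r * nf g := by
    intro g x s e
    have e1 := map_equiv_removeNone (swap none x * g * (swap none x)⁻¹)
    rw [show (swap none x * g * (swap none x)⁻¹) none = none by simp [e], swap_self,
      ← Perm.one_def, one_mul] at e1
    generalize removeNone _ = σ at e1
    have e2 := htr σ (by
      rw [← Equiv.optionCongr_sign, e1, ← s]
      exact Perm.sign_eq_sign_of_equiv _ _ (swap none x)⁻¹ (by simp))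
    have e3 : nf g = Nat.card {a // σ a = a} + 1 := by
      rw [← nf_conj (swap none x), ← e1, Nat.card_eq_fintype_card, Fintype.card_subtype,
        ← card_fixS]
      exact congrArg card (by ext a; simp [mem_fixS])
    change F _ = _ at e2
    rw [e3, show F g = F (optionCongr σ) from ?_, e2]
    · push_cast; ring
    · simp only [F, e1]
      rw [map_mul w.π, ← mul_assoc, map_mul R _ (w.π _⁻¹), LinearMap.trace_mul_comm, ← map_mul,
        ← mul_assoc, ← (hc _).eq, mul_assoc, ← map_mul, ← mul_assoc, inv_mul_cancel, one_mul]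
  obtain ⟨g, s1, s2, s3⟩ := ex_perm (Option A) (max k 2) 0 (by omega) (by omega)
  have hg : ∀ x, g x ≠ x := fun x => filter_eq_empty_iff.1 (card_eq_zero.1 s3) (mem_univ x)
  obtain ⟨c, S, c1, c2, -, c3, a, c4⟩ := pick g hg ∅ (by simp; omega) (by simp; omega)
  obtain ⟨d, -, d1, -, d3, -, b, d4⟩ := pick g hg S (by omega) (by omega)
  have cd : Perm.Disjoint c d := fun x => (em (x ∈ S)).elim (fun e => .inr (d3 x e))
    fun e => .inl (c3 x e)
  have f2 : F g = h + r := by
    have e1 : R (w.π (optionCongr d)) * (1 - R (w.π (optionCongr c))) =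
      1 - R (w.π (optionCongr c)) := LinearMap.ext (hz c d c1 d1 cd)
    have e2 := congrArg (fun x => LinearMap.trace ℂ (HV m) (R (ξ * w.π g) * x)) e1
    simp only [mul_sub, mul_one, map_sub, ← map_mul, mul_assoc ξ, ← mul_assoc g] at e2
    have e3 := nf_add g (optionCongr c) (optionCongr d) fun x => by
      cases x with
      | none => exact .inl rfl
      | some x => simpa using cd x
    have e4 := f1 (g * optionCongr c) a (by simp [s1, c1]) c4
    have e5 := f1 (g * optionCongr d) b (by simp [s1, d1]) d4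
    have e6 := f1 (g * optionCongr d * optionCongr c) a (by simp [s1, c1, d1]) (by
      have : d (c a) = c a := (cd (c a)).resolve_left fun f => hg a (by rwa [c.injective f] at c4)
      simpa [this] using c4)
    have e7 := congrArg (Nat.cast (R := ℂ)) e3
    rw [show nf g = 0 from s3] at e7
    push_cast at e7
    simp only [F] at *
    linear_combination -e2 + e4 + e5 - e6 - r * e7
  have fx : ∀ {Ω : Type} [MulAction G Ω] {s : Ω → Finset (Option A)},
      Supp (w.map (MulAction.toPermHom G Ω)) k s →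
      Nat.card {ω : Ω // MulAction.toPerm (ξ * w.π g) ω = ω} = cnt ξ s ∅ := by
    intro Ω _ s hs
    refine Nat.card_congr (Equiv.subtypeEquivRight fun ω => ?_)
    have key : s ω ⊆ ∅ → w.π g • ω = ω := fun e => (hs.2.1 ω).1 g s1 fun a ha =>
      absurd (e (by simpa using ha)) (notMem_empty a)
    change (ξ * w.π g) • ω = ω ↔ _
    rw [mul_smul]
    refine ⟨fun e => ?_, fun e => by rw [key e.2, e.1]⟩
    have e1 : s (w.π g • ω) = (s ω).map g.toEmbedding := hs.2.2.2.1 _ ω
    rw [← supp_xi w ξ hc hε hξ hs (by omega), e] at e1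
    have e2 : s ω ⊆ ∅ := fun a ha => absurd (inv_small g _ s2 (s ω) (fun a ha =>
      e1 ▸ mem_map_of_mem _ ha) ((hs.1 ω).trans_le (le_max_left _ _)) a ha) (hg a)
    exact ⟨by rwa [key e2] at e, e2⟩
  have h0 := h3 V E (HV m) o t j (MulAction.toPerm (ξ * w.π g)) (MulAction.toPerm (ξ * w.π g))
    (π (ψ (ξ * w.π g))) (fun e => ao _ e) (fun e => at' _ e) hne hcon hinj hrng fun x e => heq _ x e
  rw [fx hV, fx hE] at h0
  have h0' : cnt ξ sV ∅ + h + r = cnt ξ sE ∅ + 1 := by
    have : ((cnt ξ sV ∅ + h + r : ℕ) : ℂ) = ((cnt ξ sE ∅ + 1 : ℕ) : ℂ) := by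
      change _ = 1 - F g at h0
      push_cast; linear_combination h0 - f2
    exact_mod_cast this
  have hend : ∀ e, (ξ • e = e ∧ sE e ⊆ ∅) →
      (ξ • o e = o e ∧ sV (o e) ⊆ ∅) ∧ (ξ • t e = t e ∧ sV (t e) ⊆ ∅) := fun e he =>
    ⟨⟨by rw [← ao, he.1], (hsub e).1.trans he.2⟩, ⟨by rw [← at', he.1], (hsub e).2.trans he.2⟩⟩
  by_cases hv : ∃ v, ξ • v = v ∧ sV v ⊆ ∅
  · have b1 := (h2 V E o t).2.2.2 (fun v => ξ • v = v ∧ sV v ⊆ ∅) (fun e => ξ • e = e ∧ sE e ⊆ ∅)
      ((FixSpan (ψ ξ)).map j) hend hv fun c hc1 hc2 => by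
        obtain ⟨x, rfl⟩ := (hrng c).2 hc1
        exact ⟨x, (hD ξ hξ x).1 fun e he => (hc2 e he).1, rfl⟩
    have b2 := Submodule.finrank_map_le j (FixSpan (ψ ξ))
    have b3 : cnt ξ sE ∅ + 1 ≤ cnt ξ sV ∅ + Module.finrank ℂ ((FixSpan (ψ ξ)).map j) := b1
    omega
  · have : IsEmpty {v // ξ • v = v ∧ sV v ⊆ ∅} := ⟨fun v => hv ⟨v.1, v.2⟩⟩
    have : IsEmpty {e // ξ • e = e ∧ sE e ⊆ ∅} := ⟨fun e => hv ⟨o e.1, (hend e.1 e.2).1⟩⟩
    have b1 : cnt ξ sV ∅ = 0 := Nat.card_of_isEmpty
    have b2 : cnt ξ sE ∅ = 0 := Nat.card_of_isEmpty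
    omega

end Pool.Agent.MP_3ce0a0_al.H16
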