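import Pool.Agent.MP_3ce0a0_al.H79.XJ

/-
Commuting signs permuted by transvections of order two.
-/

namespace Pool.Agent.MP_3ce0a0_al.H16.XOm

open Equiv Module Finset Pool.Agent.MP_3ce0a0_al.H79.X

variable {ι H : Type} [DecidableEq ι] [AddCommGroup H] [Module ℂ H]

/-- signs `D` and involutions `R`. -/
structure DR (D : ι → End ℂ H) (R : ι → ι → End ℂ H) : Prop where
  DD : ∀ a, D a * D a = 1
  Dc : ∀ a b, Commute (D a) (D b)
  RR : ∀ a b, a ≠ b → R a b * R a b = 1
  DRo : ∀ a b c, a ≠ b → c ≠ a → Commute (D c) (R a b)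
  DRa : ∀ a b, a ≠ b → D a * R a b = R a b * (D a * D b)
  col : ∀ a b c, a ≠ b → c ≠ b → Commute (R a b) (R c b)
  oth : ∀ a b c e, c ≠ b → e ≠ a → c ≠ a → e ≠ b → Commute (R c b) (R e a)
  cj : ∀ a b c, b ≠ a → c ≠ b → c ≠ a → R b a * R c b = R c b * (R b a * R c a)

lemma app_eq {f g : End ℂ H} (h : f = g) (v : H) : f v = g v := by rw [h]

lemma capp {f g : End ℂ H} (h : Commute f g) (v : H) : f (g v) = g (f v) := app_eq h.eq v

lemma sq_app {f : End ℂ H} (h : f * f = 1) (v : H) : f (f v) = v := app_eq h v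

lemma fr_le [FiniteDimensional ℂ H] {u : End ℂ H} (hu : u * u = 1) {P P' : Submodule ℂ H}
    (h : ∀ v ∈ P, u v ∈ P') : finrank ℂ P ≤ finrank ℂ P' := by
  rw [← finrank_map_unit (Q := P) hu]
  exact Submodule.finrank_mono (Submodule.map_le_iff_le_comap.2 h)

variable [Fintype ι] {D : ι → End ℂ H} {R : ι → ι → End ℂ H} {M : Finset ι} {a b c : ι}

lemma DR.keeps (h : DR D R) (hb : b ∉ M) (ab : a ≠ b) : Keeps (R a b) (JE D univ M) := by
  intro v hv
  rw [mem_JE] at hv ⊢
  intro c hc
  by_cases k : c = a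
  · subst k
    have e := app_eq (h.DRa c b ab) v
    simp only [End.mul_apply] at e
    rw [e, hv b (mem_univ _), if_neg hb, hv c hc]
    split_ifs <;> simp
  · rw [capp (h.DRo a b c ab k), hv c hc]
    split_ifs <;> simp

lemma DR.move (h : DR D R) (hb : b ∈ M) (ab : a ≠ b) :
    ∀ v ∈ JE D univ M, R a b v ∈ JE D univ (symmDiff M {a}) := by
  intro v hv
  rw [mem_JE] at hv ⊢
  intro c hc
  by_cases k : c = a
  · subst k
    have e := app_eq (h.DRa c b ab) v
    simp only [End.mul_apply] at e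
    rw [e, hv b (mem_univ _), if_pos hb, map_neg, hv c hc]
    by_cases l : c ∈ M <;> simp [l, mem_symmDiff]
  · rw [capp (h.DRo a b c ab k), hv c hc]
    by_cases l : c ∈ M <;> simp [l, k, mem_symmDiff]

variable [FiniteDimensional ℂ H]

lemma DR.fr_flip (h : DR D R) (hb : b ∈ M) (ab : a ≠ b) :
    finrank ℂ (JE D univ (symmDiff M {a})) = finrank ℂ (JE D univ M) := by
  refine le_antisymm ?_ (fr_le (h.RR a b ab) (h.move hb ab))
  have hb' : b ∈ symmDiff M {a} := by simp [mem_symmDiff, hb, ab.symm]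
  have := fr_le (h.RR a b ab) (h.move hb' ab)
  rwa [symmDiff_symmDiff_cancel_right] at this

lemma DR.fr_single (h : DR D R) (hb : b ∈ M) :
    finrank ℂ (JE D univ M) = finrank ℂ (JE D univ {b}) := by
  have key : ∀ K : Finset ι, b ∉ K →
      finrank ℂ (JE D univ (insert b K)) = finrank ℂ (JE D univ {b}) := by
    intro K
    induction K using Finset.induction_on with
    | empty => intro _; rfl
    | insert a K ha ih =>
      intro hK
      rw [mem_insert, not_or] at hK
      have e : insert b (insert a K) = symmDiff (insert b K) {a} := by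
        ext x
        simp only [mem_insert, mem_symmDiff, mem_singleton]
        by_cases k : x = a
        · subst k
          simp [ha, Ne.symm hK.1]
        · simp [k]
      rw [e, h.fr_flip (mem_insert_self b K) (Ne.symm hK.1), ih hK.2]
  have := key (M.erase b) (notMem_erase b M)
  rwa [insert_erase hb] at this

lemma DR.fr_eq (h : DR D R) {M' : Finset ι} (hM : M.Nonempty) (hM' : M'.Nonempty) :
    finrank ℂ (JE D univ M) = finrank ℂ (JE D univ M') := by
  obtain ⟨b, hb⟩ := hM
  obtain ⟨b', hb'⟩ := hM'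
  rw [h.fr_single hb, h.fr_single hb', ← h.fr_single (M := {b, b'}) (b := b) (by simp),
    ← h.fr_single (M := {b, b'}) (b := b') (by simp)]

lemma DR.bound (h : DR D R) (hM : M.Nonempty) :
    (2 ^ Fintype.card ι - 1) * finrank ℂ (JE D univ M) ≤ finrank ℂ H := by
  have e := JE_sum (Q := ⊤) (x := D) (S := univ) (fun a _ v _ => sq_app (h.DD a) v)
    (fun a _ b _ v _ => capp (h.Dc a b) v) (fun a _ v _ => trivial)
  rw [finrank_top] at e
  rw [← e]
  calc (2 ^ Fintype.card ι - 1) * finrank ℂ (JE D univ M)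
      = ∑ I ∈ (univ : Finset ι).powerset.erase ∅, finrank ℂ (JE D univ M) := by
        rw [sum_const, card_erase_of_mem (by simp), card_powerset, card_univ, smul_eq_mul]
    _ = ∑ I ∈ (univ : Finset ι).powerset.erase ∅,
          finrank ℂ (⊤ ⊓ JE D univ I : Submodule ℂ H) := by
        refine sum_congr rfl fun I hI => ?_
        rw [top_inf_eq, h.fr_eq hM (nonempty_iff_ne_empty.2 (ne_of_mem_erase hI))]
    _ ≤ _ := sum_le_sum_of_subset (erase_subset _ _)

omit [FiniteDimensional ℂ H] in
lemma DR.flip (h : DR D R) {J : Finset ι} (hb : b ∉ M) (ba : b ≠ a) (cb : c ≠ b) (ca : c ≠ a)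
    (hc : c ∈ J) : ∀ v ∈ JE D univ M ⊓ JE (fun e => R e a) (univ.erase a) J,
      R c b v ∈ JE D univ M ⊓ JE (fun e => R e a) (univ.erase a) (symmDiff J {b}) := by
  rintro v ⟨h1, h2⟩
  refine ⟨h.keeps hb cb v h1, ?_⟩
  have h2' := mem_JE.1 h2
  refine mem_JE.2 fun e he => ?_
  by_cases k : e = b
  · subst k
    have e1 := app_eq (h.cj a e c ba cb ca) v
    simp only [End.mul_apply] at e1
    have e2 := h2' c (by simp [ca])
    have e3 := h2' e he
    rw [if_pos hc] at e2
    rw [e1, e2, map_neg, e3]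
    by_cases l : e ∈ J <;> simp [l, mem_symmDiff]
  · have e3 := h2' e he
    rw [← capp (h.oth a b c e cb (ne_of_mem_erase he) ca k), e3]
    by_cases l : e ∈ J <;> simp [l, k, mem_symmDiff]

lemma DR.claim (h : DR D R) {k : ℕ} (ha : a ∉ M) (hk : k + 2 ≤ Mᶜ.card)
    (hp : finrank ℂ (JE D univ M) < 2 ^ k) (ca : c ≠ a) :
    ∀ v ∈ JE D univ M, R c a v = v := by
  have key : ∀ J ⊆ univ.erase a, c ∈ J →
      JE D univ M ⊓ JE (fun e => R e a) (univ.erase a) J = ⊥ := by
    intro J hJ hc
    by_contra hne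
    have hB : ∀ x ∈ (Mᶜ.erase a).erase c, x ∉ M ∧ x ≠ a ∧ x ≠ c := fun x hx => by
      simp only [mem_erase, mem_compl] at hx
      exact ⟨hx.2.2, hx.2.1, hx.1⟩
    have step : ∀ K : Finset ι, K ⊆ (Mᶜ.erase a).erase c →
        JE D univ M ⊓ JE (fun e => R e a) (univ.erase a) (symmDiff J K) ≠ ⊥ := by
      intro K
      induction K using Finset.induction_on with
      | empty =>
        intro _
        have e : symmDiff J ∅ = J := symmDiff_bot J
        rwa [e]
      | insert b K hbK ih =>
        intro hK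
        obtain ⟨b1, b2, b3⟩ := hB b (hK (mem_insert_self _ _))
        have hK' : K ⊆ (Mᶜ.erase a).erase c := (subset_insert _ _).trans hK
        obtain ⟨v, hv, v0⟩ := (Submodule.ne_bot_iff _).1 (ih hK')
        have hc' : c ∈ symmDiff J K :=
          mem_symmDiff.2 (Or.inl ⟨hc, fun l => (hB c (hK' l)).2.2 rfl⟩)
        have e : symmDiff J (insert b K) = symmDiff (symmDiff J K) {b} := by
          ext x
          simp only [mem_insert, mem_symmDiff, mem_singleton]
          by_cases l : x = b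
          · subst l
            simp [hbK]
          · simp [l]
        rw [e]
        refine (Submodule.ne_bot_iff _).2 ⟨R c b v, h.flip b1 b2 b3.symm ca hc' v hv, fun z => v0 ?_⟩
        rw [← sq_app (h.RR c b b3.symm) v, z, map_zero]
    have hT := JE_card_le (Q := JE D univ M) (x := fun e => R e a) (S := univ.erase a)
      (((Mᶜ.erase a).erase c).powerset.image fun K => symmDiff J K) (by
        intro I hI
        obtain ⟨K, hK, rfl⟩ := mem_image.1 hI
        rw [mem_powerset] at hK
        refine ⟨fun x hx => ?_, step K hK⟩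
        rcases mem_symmDiff.1 hx with l | l
        · exact hJ l.1
        · simp [(hB x (hK l.1)).2.1])
    rw [card_image_of_injective _ (symmDiff_right_injective J), card_powerset] at hT
    have h1 := pred_card_le_card_erase (s := Mᶜ) (a := a)
    have h2 := pred_card_le_card_erase (s := Mᶜ.erase a) (a := c)
    have h3 : 2 ^ k ≤ 2 ^ ((Mᶜ.erase a).erase c).card :=
      Nat.pow_le_pow_right (by norm_num) (by omega)
    omega
  have e := JE_iSup (Q := JE D univ M) (x := fun e => R e a) (S := univ.erase a)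
    (fun x hx v _ => sq_app (h.RR x a (ne_of_mem_erase hx)) v)
    (fun x hx y hy v _ => capp (h.col x a y (ne_of_mem_erase hx) (ne_of_mem_erase hy)) v)
    (fun x hx => h.keeps ha (ne_of_mem_erase hx))
  have le : JE D univ M ≤ LinearMap.eqLocus (R c a) (1 : End ℂ H) := by
    rw [← e]
    refine iSup_le fun J v hv => ?_
    by_cases l : c ∈ J.1
    · rw [key J.1 (mem_powerset.1 J.2) l, Submodule.mem_bot] at hv
      simp [hv]
    · have := mem_JE.1 hv.2 c (by simp [ca])
      rw [if_neg l] at this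
      exact this
  exact fun v hv => le hv

lemma DR.triple (h : DR D R) {k : ℕ} (hk : k + 2 ≤ Mᶜ.card)
    (hp : finrank ℂ (JE D univ M) < 2 ^ k) (ab : a ≠ b) (hab : a ∈ M ↔ b ∈ M) :
    ∀ v ∈ JE D univ M, R a b (R b a (R a b v)) = v := by
  intro v hv
  by_cases l : b ∈ M
  · have ha : a ∉ symmDiff M {a} := by simp [mem_symmDiff, hab.2 l]
    have hk' : k + 2 ≤ (symmDiff M {a})ᶜ.card := by
      refine hk.trans (card_le_card fun x hx => ?_)
      rw [mem_compl] at hx ⊢
      intro y
      rcases mem_symmDiff.1 y with y | y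
      · exact hx y.1
      · exact y.2 (by rw [mem_singleton.1 y.1]; exact hab.2 l)
    rw [h.claim ha hk' (by rwa [h.fr_flip l ab]) ab.symm _ (h.move l ab v hv),
      sq_app (h.RR a b ab)]
  · have ha : a ∉ M := fun y => l (hab.1 y)
    rw [h.claim l hk hp ab v hv, h.claim ha hk hp ab.symm v hv, h.claim l hk hp ab v hv]

omit [DecidableEq ι] [Fintype ι] [FiniteDimensional ℂ H] in
lemma zero_of_neg {v : H} (h : -v = v) : v = 0 := by
  have e : (2 : ℂ) • v = 0 := by
    rw [two_smul]
    nth_rewrite 1 [← h]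
    exact neg_add_cancel v
  exact (smul_eq_zero.1 e).resolve_left two_ne_zero

lemma DR.triple_on (h : DR D R) {k : ℕ} {Y : Submodule ℂ H} {A B : Finset ι}
    (hp : ∀ M : Finset ι, M.Nonempty → finrank ℂ (JE D univ M) < 2 ^ k)
    (hY : ∀ c, Keeps (D c) Y) (hA : ∀ c ∈ A, ∀ v ∈ Y, D c v = -v)
    (hB : ∀ c ∈ B, ∀ v ∈ Y, D c v = v) (nA : A.Nonempty) (nB : k + 2 ≤ B.card) (ab : a ≠ b)
    (hab : ∀ v ∈ Y, D a (D b v) = v) : ∀ v ∈ Y, R a b (R b a (R a b v)) = v := by
  have e := JE_iSup (Q := Y) (x := D) (S := univ) (fun a _ v _ => sq_app (h.DD a) v)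
    (fun a _ b _ v _ => capp (h.Dc a b) v) (fun a _ => hY a)
  have le : Y ≤ LinearMap.eqLocus (R a b * R b a * R a b) (1 : End ℂ H) := by
    rw [← e]
    refine iSup_le fun J v hv => ?_
    by_cases v0 : v = 0
    · simp [v0]
    have hv2 := mem_JE.1 hv.2
    have h1 : A ⊆ J.1 := fun c hc => by_contra fun l => v0 (zero_of_neg (by
      have := hv2 c (mem_univ _)
      rwa [if_neg l, hA c hc v hv.1] at this))
    have h2 : B ⊆ J.1ᶜ := fun c hc => mem_compl.2 fun l => v0 (zero_of_neg (by
      have := hv2 c (mem_univ _)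
      rw [if_pos l, hB c hc v hv.1] at this
      exact this.symm))
    have h3 : a ∈ J.1 ↔ b ∈ J.1 := by
      have e1 := hab v hv.1
      have e2 := hv2 a (mem_univ _)
      have e3 := hv2 b (mem_univ _)
      constructor
      · intro l
        by_contra m
        rw [if_neg m] at e3
        rw [if_pos l] at e2
        rw [e3, e2] at e1
        exact v0 (zero_of_neg e1)
      · intro l
        by_contra m
        rw [if_pos l] at e3
        rw [if_neg m] at e2
        rw [e3, map_neg, e2] at e1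
        exact v0 (zero_of_neg e1)
    exact h.triple (nB.trans (card_le_card h2)) (hp _ (nA.mono h1)) ab h3 v hv.2
  exact fun v hv => le hv

lemma DR.eq_one (h : DR D R) (hM : M.Nonempty) (h0 : JE D univ M = ⊥) (a : ι) : D a = 1 := by
  have e := JE_iSup (Q := ⊤) (x := D) (S := univ) (fun a _ v _ => sq_app (h.DD a) v)
    (fun a _ b _ v _ => capp (h.Dc a b) v) (fun a _ v _ => trivial)
  have le : ⊤ ≤ LinearMap.eqLocus (D a) (1 : End ℂ H) := by
    rw [← e]
    refine iSup_le fun J v hv => ?_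
    by_cases l : a ∈ J.1
    · have e1 := h.fr_eq hM ⟨a, l⟩
      rw [h0, finrank_bot, eq_comm, Submodule.finrank_eq_zero] at e1
      have := hv.2
      rw [e1] at this
      simp [(Submodule.mem_bot ℂ).1 this]
    · have := mem_JE.1 hv.2 a (mem_univ _)
      rw [if_neg l] at this
      exact this
  exact LinearMap.ext fun v => le (Submodule.mem_top (x := v))

omit [FiniteDimensional ℂ H] in
lemma split {x : End ℂ H} {Q : Submodule ℂ H} (hx : x * x = 1) (hQ : Keeps x Q) :
    Q ⊓ End.eigenspace x 1 ⊔ Q ⊓ End.eigenspace x (-1) = Q := by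
  refine le_antisymm (sup_le inf_le_left inf_le_left) fun v hv => ?_
  have e : v = (2 : ℂ)⁻¹ • (v + x v) + (2 : ℂ)⁻¹ • (v - x v) := by
    rw [← smul_add, add_add_sub_cancel, ← two_smul ℂ v, smul_smul]
    norm_num
  rw [e]
  refine Submodule.add_mem_sup (Submodule.smul_mem _ _ ⟨add_mem hv (hQ v hv), ?_⟩)
    (Submodule.smul_mem _ _ ⟨sub_mem hv (hQ v hv), ?_⟩)
  · refine End.mem_eigenspace_iff.2 ?_
    rw [map_add, sq_app hx, one_smul, add_comm]
  · refine End.mem_eigenspace_iff.2 ?_
    rw [map_sub, sq_app hx, neg_one_smul, neg_sub]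

omit [FiniteDimensional ℂ H] in
lemma eig_one {x : End ℂ H} {v : H} (h : v ∈ End.eigenspace x 1) : x v = v := by
  rw [End.mem_eigenspace_iff.1 h, one_smul]

omit [FiniteDimensional ℂ H] in
lemma eig_neg {x : End ℂ H} {v : H} (h : v ∈ End.eigenspace x (-1)) : x v = -v := by
  rw [End.mem_eigenspace_iff.1 h, neg_one_smul]

lemma trOn_split {x f : End ℂ H} {Q : Submodule ℂ H} (hx : x * x = 1) (hQ : Keeps x Q)
    (hf : Keeps f Q) (c : Commute f x) : trOn f Q =
      trOn f (Q ⊓ End.eigenspace x 1) + trOn f (Q ⊓ End.eigenspace x (-1)) := by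
  rw [← trOn_sup (hf.inf (keeps_eig c 1)) (hf.inf (keeps_eig c (-1))), split hx hQ]
  refine Submodule.disjoint_def.2 fun v h1 h2 => zero_of_neg ?_
  rw [← eig_neg h2.2, eig_one h1.2]

omit [FiniteDimensional ℂ H] in
lemma anti {u f : End ℂ H} {Q : Submodule ℂ H} (hu : u * u = 1) (hQ : Keeps u Q)
    (hf : Keeps f Q) (e : ∀ v ∈ Q, f (u v) = -u (f v)) : trOn f Q = 0 := by
  have e1 : trOn f Q = trOn (f * u * u) Q := by rw [mul_assoc, hu, mul_one]
  have e2 : trOn (u * (f * u)) Q = trOn ((-1 : ℂ) • f) Q := trOn_congr fun v hv => by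
    simp only [End.mul_apply, LinearMap.smul_apply]
    rw [e v hv, map_neg, sq_app hu, neg_one_smul]
  rw [trOn_mul_comm (hf.mul hQ) hQ, e2, trOn_smul hf] at e1
  linear_combination e1 / 2

end Pool.Agent.MP_3ce0a0_al.H16.XOm
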