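import Pool.Agent.MP_3ce0a0_al.H79.XS
import Pool.Agent.MP_3ce0a0_al.H16.XOmA

/-
Representations in which the transvections are involutions.
-/

namespace Pool.Agent.MP_3ce0a0_al.H16.XOm

open Equiv Module Finset Pool.Agent.MP_3ce0a0_al.H79.X Pool.Agent.MP_3ce0a0_al.H62.Inst

variable {ι H : Type} [DecidableEq ι] [AddCommGroup H] [Module ℂ H]

/-- the central involution. -/
structure ZD (r : Rep ι H) (Z : End ℂ H) : Prop where
  ZZ : Z * Z = 1
  Ze : ∀ a, Commute Z (r (ep a))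
  ZR : ∀ a b, a ≠ b → Commute Z (r (rh a b))
  Zt : ∀ a b, Commute Z (r (ta a b))
  eR : ∀ a b c, a ≠ b → c ≠ a → Commute (r (ep c)) (r (rh a b))
  tt : ∀ a b, a ≠ b → r (ta a b) = Z * (r (rh a b) * r (rh b a) * r (rh a b))
  dr : DR (fun b => Z * r (ep b)) fun a b => r (rh a b)

lemma ee (r : Rep ι H) (a : ι) : r (ep a) * r (ep a) = 1 := by rw [← map_mul, ep_sq, map_one]

lemma ec (r : Rep ι H) (a b : ι) : Commute (r (ep a)) (r (ep b)) := (ep_comm a b).map r

lemma zd [Fintype ι] (h : SBfin) (r : Rep ι H) (h5 : 5 ≤ Fintype.card ι)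
    (hR : ∀ a b, a ≠ b → r (rh a b) * r (rh a b) = 1) : ∃ Z, ZD r Z := by
  obtain ⟨z, z1, z2, z3, z4, z5, z6, z7, z8, z9⟩ := h ι (End ℂ H)ˣ
    ((N0 ι).map r.toHomUnits) h5 fun a b ab => Units.ext (hR a b ab)
  have ZZ : z.val * z.val = 1 := congrArg Units.val z1
  have Ze : ∀ a, Commute z.val (r (ep a)) := fun a => congrArg Units.val (z2 a).eq
  have ZR : ∀ a b, a ≠ b → Commute z.val (r (rh a b)) :=
    fun a b ab => congrArg Units.val (z4 a b ab).eq
  have eR : ∀ a b c, a ≠ b → c ≠ a → Commute (r (ep c)) (r (rh a b)) :=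
    fun a b c ab ca => congrArg Units.val (z7 a b c ab ca).eq
  have Re : ∀ a b, a ≠ b →
      r (rh a b) * r (ep a) = r (ep a) * (z.val * r (ep b)) * r (rh a b) :=
    fun a b ab => congrArg Units.val (z8 a b ab)
  have DD : ∀ a, z.val * r (ep a) * (z.val * r (ep a)) = 1 := fun a => by
    rw [(Ze a).symm.mul_mul_mul_comm, ZZ, ee, mul_one]
  have Dc : ∀ a b, Commute (z.val * r (ep a)) (z.val * r (ep b)) := fun a b =>
    ((Commute.refl _).mul_right (Ze b)).mul_left ((Ze a).symm.mul_right (ec r a b))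
  have DRo : ∀ a b c, a ≠ b → c ≠ a → Commute (z.val * r (ep c)) (r (rh a b)) :=
    fun a b c ab ca => (ZR a b ab).mul_left (eR a b c ab ca)
  refine ⟨z.val, ZZ, Ze, ZR, fun a b => congrArg Units.val (z3 (swap a b)).eq, eR,
    fun a b ab => congrArg Units.val (z9 a b ab), DD, Dc, hR, DRo, fun a b ab => ?_,
    fun a b c ab cb => congrArg Units.val (z5 a b c ab cb).eq, fun a b c e h1 h2 h3 h4 => ?_,
    fun a b c h1 h2 h3 => ?_⟩
  · have e1 : r (rh a b) * (z.val * r (ep a)) =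
        z.val * r (ep a) * (z.val * r (ep b)) * r (rh a b) := by
      rw [← mul_assoc, ← (ZR a b ab).eq, mul_assoc, Re a b ab]
      simp only [mul_assoc]
    change z.val * r (ep a) * r (rh a b) =
      r (rh a b) * (z.val * r (ep a) * (z.val * r (ep b)))
    rw [← mul_assoc (r (rh a b)), e1, mul_assoc _ (r (rh a b)), ← (DRo a b b ab ab.symm).eq,
      ← mul_assoc, mul_assoc (z.val * r (ep a)), DD, mul_one]
  · by_cases k : c = e
    · subst k
      exact congrArg Units.val (z6 c b a h1 h2).eq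
    · exact ((N0 ι).ρ_ρ c b e a h1 h2 k h3 h4).map r
  · have e1 : (rh c b)⁻¹ * rh b a * rh c b = rh b a * rh c a := (N0 ι).conj_ρ b a c h1 h2 h3
    change r (rh b a) * r (rh c b) = r (rh c b) * (r (rh b a) * r (rh c a))
    rw [← map_mul, ← map_mul, ← map_mul, ← e1]
    congr 1
    group

variable [Fintype ι] [FiniteDimensional ℂ H] {r : Rep ι H} {Z : End ℂ H}

lemma ZD.sec_bot (h : ZD r Z) (hc : Conv2 r) {k : ℕ}
    (hp : ∀ M : Finset ι, M.Nonempty →
      finrank ℂ (JE (fun b => Z * r (ep b)) univ M) < 2 ^ k)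
    {a b e f : ι} {I : Finset ι} (nd : [a, b, e, f].Nodup) (hI : I ⊆ univ \ {a, b})
    (h1 : k + 2 ≤ I.card) (h2 : k + 2 ≤ ((univ \ {a, b}) \ I).card) (he : e ∈ I) (hf : f ∈ I) :
    Sec r univ I = ⊥ := by
  have ab : a ≠ b := by rintro rfl; simp at nd
  have ef : e ≠ f := by rintro rfl; simp at nd
  have nI : I.Nonempty := card_pos.1 (by omega)
  have nJ : ((univ \ {a, b}) \ I).Nonempty := card_pos.1 (by omega)
  have nc : NC (univ \ {a, b}) I := ⟨hI, nI, fun x => by rw [← x] at nJ; simp at nJ⟩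
  have eqn := hc a b e f nd I nc (by simp [he, hf])
  set S : Finset ι := univ \ {a, b} with hS
  have mS : ∀ c ∈ S, c ≠ a ∧ c ≠ b := fun c hc => by simpa [hS, not_or] using hc
  set Q := Sec r S I with hQ
  have kZ : Keeps Z Q := keeps_JE I fun c _ => h.Ze c
  have ke : ∀ c, Keeps (r (ep c)) Q := fun c => keeps_JE I fun d _ => ec r c d
  have sI : ∀ c ∈ I, ∀ v ∈ Q, r (ep c) v = -v := fun c hc v hv => by
    have := mem_JE.1 hv c (hI hc)
    rwa [if_pos hc] at this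
  have sJ : ∀ c ∈ S \ I, ∀ v ∈ Q, r (ep c) v = v := fun c hc v hv => by
    have := mem_JE.1 hv c (mem_sdiff.1 hc).1
    rwa [if_neg (mem_sdiff.1 hc).2] at this
  have pI : ∀ c ∈ I, ∀ v ∈ Q ⊓ End.eigenspace Z 1, (Z * r (ep c)) v = -v := fun c hc v hv => by
    rw [End.mul_apply, sI c hc v hv.1, map_neg, eig_one hv.2]
  have pJ : ∀ c ∈ S \ I, ∀ v ∈ Q ⊓ End.eigenspace Z 1, (Z * r (ep c)) v = v :=
    fun c hc v hv => by rw [End.mul_apply, sJ c hc v hv.1, eig_one hv.2]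
  have mI : ∀ c ∈ I, ∀ v ∈ Q ⊓ End.eigenspace Z (-1), (Z * r (ep c)) v = v := fun c hc v hv => by
    rw [End.mul_apply, sI c hc v hv.1, map_neg, eig_neg hv.2, neg_neg]
  have mJ : ∀ c ∈ S \ I, ∀ v ∈ Q ⊓ End.eigenspace Z (-1), (Z * r (ep c)) v = -v :=
    fun c hc v hv => by rw [End.mul_apply, sJ c hc v hv.1, eig_neg hv.2]
  have tZ : ∀ (Y : Submodule ℂ H) (x y : ι), Y ≤ Q → Keeps Z Y → (∀ c, Keeps (r (ep c)) Y) →
      x ≠ y → (∀ v ∈ Y, r (ep x) (r (ep y) v) = v) → ∀ v ∈ Y, r (ta x y) v = Z v := by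
    intro Y x y le k1 k2 xy hxy
    have kD : ∀ (s : ℂ) c, Keeps (Z * r (ep c)) (Y ⊓ End.eigenspace Z s) := fun s c =>
      (k1.mul (k2 c)).inf (keeps_eig ((Commute.refl Z).mul_left (h.Ze c).symm) s)
    have hD : ∀ v ∈ Y, (Z * r (ep x)) ((Z * r (ep y)) v) = v := fun v hv => by
      simp only [End.mul_apply]
      rw [← capp (h.Ze x), sq_app h.ZZ, hxy v hv]
    have le2 : Y ≤ LinearMap.eqLocus (r (rh x y) * r (rh y x) * r (rh x y)) (1 : End ℂ H) := by
      rw [← split h.ZZ k1]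
      refine sup_le (fun v hv => ?_) fun v hv => ?_
      · exact h.dr.triple_on hp (kD 1) (fun c hc v hv => pI c hc v ⟨le hv.1, hv.2⟩)
          (fun c hc v hv => pJ c hc v ⟨le hv.1, hv.2⟩) nI h2 xy (fun v hv => hD v hv.1) v hv
      · exact h.dr.triple_on hp (kD (-1)) (fun c hc v hv => mJ c hc v ⟨le hv.1, hv.2⟩)
          (fun c hc v hv => mI c hc v ⟨le hv.1, hv.2⟩) nJ h1 xy (fun v hv => hD v hv.1) v hv
    intro v hv
    have e1 : (r (rh x y) * r (rh y x) * r (rh x y)) v = v := le2 hv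
    rw [h.tt x y xy, End.mul_apply, e1]
  have tef := tZ Q e f le_rfl kZ ke ef fun v hv => by
    rw [sI f hf v hv, map_neg, sI e he v hv, neg_neg]
  have l1 : trOn (r (ta a b * ta e f)) Q = trOn (r (ta a b) * Z) Q :=
    trOn_congr fun v hv => by rw [map_mul, End.mul_apply, End.mul_apply, tef v hv]
  have l2 : trOn (r (ep a * ta e f)) Q = trOn (Z * r (ep a)) Q :=
    trOn_congr fun v hv => by
      rw [map_mul, End.mul_apply, End.mul_apply, tef v hv, capp (h.Ze a)]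
  have cD : Commute (Z * r (ep a)) Z := (Commute.refl Z).mul_left (h.Ze a).symm
  have r0 : trOn (Z * r (ep a)) Q = 0 := by
    have key : ∀ (s : ℂ) g, g ∈ S →
        (∀ v ∈ Q ⊓ End.eigenspace Z s, (Z * r (ep g)) v = -v) →
        trOn (Z * r (ep a)) (Q ⊓ End.eigenspace Z s) = 0 := fun s g hg hs => by
      have ag := (mS g hg).1.symm
      refine anti (h.dr.RR a g ag) (Keeps.inf
        (keeps_JE I fun c hc => (h.eR a g c ag (mS c hc).1).symm)
        (keeps_eig (h.ZR a g ag).symm s)) ((kZ.mul (ke a)).inf (keeps_eig cD s)) fun v hv => ?_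
      have e1 : (Z * r (ep a)) (r (rh a g) v) =
          r (rh a g) ((Z * r (ep a)) ((Z * r (ep g)) v)) := app_eq (h.dr.DRa a g ag) v
      rw [e1, hs v hv, map_neg, map_neg]
    obtain ⟨g, hg⟩ := nI
    obtain ⟨g', hg'⟩ := nJ
    rw [trOn_split h.ZZ kZ (kZ.mul (ke a)) cD, key 1 g (hI hg) (pI g hg),
      key (-1) g' (mem_sdiff.1 hg').1 (mJ g' hg'), add_zero]
  have ta1 : r (ta a b) * r (ep a) = r (ep b) * r (ta a b) := by
    rw [← map_mul, ← map_mul, ta, pm_ep, swap_apply_left]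
  have ta2 : r (ta a b) * r (ep b) = r (ep a) * r (ta a b) := by
    rw [← map_mul, ← map_mul, ta, pm_ep, swap_apply_right]
  have kt : Keeps (r (ta a b)) Q := keeps_JE I fun c hc => by
    change r (ta a b) * r (ep c) = r (ep c) * r (ta a b)
    rw [← map_mul, ← map_mul, ta, pm_ep, swap_apply_of_ne_of_ne (mS c hc).1 (mS c hc).2]
  have xx : r (ep a) * r (ep b) * (r (ep a) * r (ep b)) = 1 := by
    rw [(ec r a b).symm.mul_mul_mul_comm, ee, ee, mul_one]
  have ct : Commute (r (ta a b)) (r (ep a) * r (ep b)) := by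
    change r (ta a b) * (r (ep a) * r (ep b)) = r (ep a) * r (ep b) * r (ta a b)
    rw [← mul_assoc, ta1, mul_assoc, ta2, ← mul_assoc, (ec r a b).eq]
  have cZ : Commute Z (r (ep a) * r (ep b)) := (h.Ze a).mul_right (h.Ze b)
  have ce : ∀ c, Commute (r (ep c)) (r (ep a) * r (ep b)) :=
    fun c => (ec r c a).mul_right (ec r c b)
  have l3 : trOn (r (ta a b) * Z) (Q ⊓ End.eigenspace (r (ep a) * r (ep b)) (-1)) = 0 := by
    have kk := (kt.mul kZ).inf (keeps_eig (ct.mul_left cZ) (-1))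
    refine anti (ee r a) ((ke a).inf (keeps_eig (ce a) _)) kk fun v hv => ?_
    have e1 := eig_neg (kk v hv).2
    have e2 := app_eq ta1 (Z v)
    simp only [End.mul_apply] at e1 e2 ⊢
    rw [capp (h.Ze a), e2, ← map_neg (r (ep a)), ← e1, sq_app (ee r a)]
  have l4 : trOn (r (ta a b) * Z) (Q ⊓ End.eigenspace (r (ep a) * r (ep b)) 1) =
      1 * finrank ℂ (Q ⊓ End.eigenspace (r (ep a) * r (ep b)) 1 : Submodule ℂ H) := by
    have k1 := kZ.inf (keeps_eig cZ 1)
    refine trOn_scalar fun v hv => ?_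
    rw [End.mul_apply, tZ _ a b inf_le_left k1 (fun c => (ke c).inf (keeps_eig (ce c) 1)) ab
      (fun v hv => eig_one hv.2) _ (k1 v hv), sq_app h.ZZ, one_smul]
  rw [l1, l2, r0, trOn_split xx ((ke a).mul (ke b)) (kt.mul kZ) (ct.mul_left cZ), l3, l4, add_zero,
    one_mul, Nat.cast_eq_zero, Submodule.finrank_eq_zero] at eqn
  refine eq_bot_iff.2 fun v hv => ?_
  rw [← eqn]
  have hv2 := mem_JE.1 hv
  refine ⟨mem_JE.2 fun c _ => hv2 c (mem_univ _), End.mem_eigenspace_iff.2 ?_⟩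
  have e1 := hv2 a (mem_univ _)
  have e2 := hv2 b (mem_univ _)
  rw [if_neg fun l => (mS a (hI l)).1 rfl] at e1
  rw [if_neg fun l => (mS b (hI l)).2 rfl] at e2
  rw [End.mul_apply, e2, e1, one_smul]

lemma ZD.sec_bot' (h : ZD r Z) (hc : Conv2 r) {k : ℕ}
    (hp : ∀ M : Finset ι, M.Nonempty →
      finrank ℂ (JE (fun b => Z * r (ep b)) univ M) < 2 ^ k)
    {I : Finset ι} (h1 : k + 2 ≤ I.card) (h2 : k + 4 ≤ Iᶜ.card) : Sec r univ I = ⊥ := by
  obtain ⟨a, ha, b, hb, ab⟩ := one_lt_card.1 (show 1 < Iᶜ.card by omega)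
  obtain ⟨e, he, f, hf, ef⟩ := one_lt_card.1 (show 1 < I.card by omega)
  rw [mem_compl] at ha hb
  have n1 := (ne_of_mem_of_not_mem he ha).symm
  have n2 := (ne_of_mem_of_not_mem hf ha).symm
  have n3 := (ne_of_mem_of_not_mem he hb).symm
  have n4 := (ne_of_mem_of_not_mem hf hb).symm
  refine h.sec_bot hc hp (a := a) (b := b) (by simp [ab, ef, n1, n2, n3, n4]) (fun x hx => ?_) h1
    ?_ he hf
  · simp [ne_of_mem_of_not_mem hx ha, ne_of_mem_of_not_mem hx hb]
  · have e1 : (univ \ {a, b}) \ I = (Iᶜ.erase a).erase b := by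
      ext x
      simp only [mem_sdiff, mem_univ, mem_insert, mem_singleton, mem_erase, mem_compl]
      tauto
    have e2 := pred_card_le_card_erase (s := Iᶜ) (a := a)
    have e3 := pred_card_le_card_erase (s := Iᶜ.erase a) (a := b)
    rw [e1]
    omega

lemma num (C n : ℕ) (h : 120 * C + 40 ≤ n) : 2 * C * n < 2 ^ (n / 2 - 4) := by
  obtain ⟨j, hj⟩ : ∃ j, j = (n / 2 - 4) / 2 := ⟨_, rfl⟩
  have h1 : 2 ^ (j + j) ≤ 2 ^ (n / 2 - 4) := Nat.pow_le_pow_right (by norm_num) (by omega)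
  have h2 : j < 2 ^ j := Nat.lt_two_pow_self
  have h3 : j * j < 2 ^ (j + j) := by
    rw [pow_add]
    exact Nat.mul_lt_mul'' h2 h2
  have h4 : n ≤ 4 * j + 11 := by omega
  have h5 : 30 * C + 1 ≤ j := by omega
  have h6 : 2 * C * n ≤ 2 * C * (15 * j) := Nat.mul_le_mul_left _ (by omega)
  have h7 : 30 * C * j ≤ j * j := Nat.mul_le_mul_right _ (by omega)
  nlinarith

theorem som (h : SBfin) : SOm := by
  intro C
  refine ⟨120 * C + 40, fun ι H _ _ _ _ _ r hn hd hR hc a b => ?_⟩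
  obtain ⟨Z, hZ⟩ := zd h r (by omega) hR
  have hp : ∀ M : Finset ι, M.Nonempty →
      finrank ℂ (JE (fun b => Z * r (ep b)) univ M) < 2 ^ (Fintype.card ι / 2 - 4) := by
    intro M hM
    have e1 := (hZ.dr.bound hM).trans hd
    have e2 := num C _ hn
    have e3 : 2 ≤ 2 ^ Fintype.card ι := by
      calc 2 = 2 ^ 1 := rfl
        _ ≤ _ := Nat.pow_le_pow_right (by norm_num) (by omega)
    refine lt_of_le_of_lt ?_ e2
    obtain ⟨m, hm⟩ : ∃ m, 2 ^ Fintype.card ι = m + 2 := ⟨2 ^ Fintype.card ι - 2, by omega⟩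
    rw [hm, show m + 2 - 1 = m + 1 from rfl] at e1
    refine Nat.le_of_mul_le_mul_left (c := m + 1) (e1.trans ?_) (by omega)
    nlinarith [Nat.zero_le (C * Fintype.card ι * m)]
  obtain ⟨M, -, hM⟩ := exists_subset_card_eq (s := (univ : Finset ι)) (n := Fintype.card ι / 2)
    (by rw [card_univ]; omega)
  have hM' : Mᶜ.card = Fintype.card ι - Fintype.card ι / 2 := by rw [card_compl, hM]
  have s1 := hZ.sec_bot' hc hp (I := M) (by omega) (by omega)
  have s2 := hZ.sec_bot' hc hp (I := Mᶜ) (by omega) (by rw [compl_compl]; omega)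
  have kZ : Keeps Z (JE (fun b => Z * r (ep b)) univ M) :=
    keeps_JE M fun c _ => (Commute.refl Z).mul_right (hZ.Ze c)
  have h0 : JE (fun b => Z * r (ep b)) univ M = ⊥ := by
    rw [← split hZ.ZZ kZ, eq_bot_iff]
    refine sup_le (fun v hv => ?_) fun v hv => ?_
    · rw [← s1]
      refine mem_JE.2 fun c hc => ?_
      have e1 := mem_JE.1 hv.1 c hc
      rwa [End.mul_apply, capp (hZ.Ze c), eig_one hv.2] at e1
    · rw [← s2]
      refine mem_JE.2 fun c hc => ?_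
      have e1 := mem_JE.1 hv.1 c hc
      rw [End.mul_apply, capp (hZ.Ze c), eig_neg hv.2, map_neg, neg_eq_iff_eq_neg] at e1
      rw [e1]
      by_cases l : c ∈ M <;> simp [l]
  have nM : M.Nonempty := card_pos.1 (by omega)
  have da : Z * r (ep a) = 1 := hZ.dr.eq_one nM h0 a
  have db : Z * r (ep b) = 1 := hZ.dr.eq_one nM h0 b
  calc r (ep a * ep b) = Z * Z * (r (ep a) * r (ep b)) := by rw [hZ.ZZ, one_mul, map_mul]
    _ = Z * r (ep a) * (Z * r (ep b)) := (hZ.Ze a).mul_mul_mul_comm _ _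
    _ = 1 := by rw [da, db, one_mul]

end Pool.Agent.MP_3ce0a0_al.H16.XOm
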