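import Pool.Agent.MP_3ce0a0_al.H79.Y3B

/-
The trace of the rotation.
-/

namespace Pool.Agent.MP_3ce0a0_al.H79.Y

open Module Pool.Agent.MP_3ce0a0_al.H79.X

namespace H16

lemma fin8 {O : Type} [Group O] {v w t : O} (hv : v * v = 1) (hw : w * w = 1) (ht : t * t = 1)
    (hvw : v * w = w * v) (htv : t * v = w * t) :
    ∃ K : Subgroup O, Finite K ∧ v ∈ K ∧ w ∈ K ∧ t ∈ K := by
  have htw : t * w = v * t := by
    calc t * w = t * (w * t) * t := by rw [mul_assoc, mul_assoc, ht, mul_one]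
      _ = v * t := by rw [← htv, ← mul_assoc, ht, one_mul]
  have a1 : ∀ x, v * (v * x) = x := fun x => by rw [← mul_assoc, hv, one_mul]
  have a2 : ∀ x, w * (w * x) = x := fun x => by rw [← mul_assoc, hw, one_mul]
  have a3 : ∀ x, t * (t * x) = x := fun x => by rw [← mul_assoc, ht, one_mul]
  have a4 : ∀ x, w * (v * x) = v * (w * x) := fun x => by rw [← mul_assoc, ← hvw, mul_assoc]
  have a5 : ∀ x, t * (v * x) = w * (t * x) := fun x => by rw [← mul_assoc, htv, mul_assoc]
  have a6 : ∀ x, t * (w * x) = v * (t * x) := fun x => by rw [← mul_assoc, htw, mul_assoc]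
  have key : ∀ s ∈ ({v, w, t} : Set O),
      ∀ x ∈ ({1, v, w, v * w, t, v * t, w * t, v * (w * t)} : Set O),
      s * x ∈ ({1, v, w, v * w, t, v * t, w * t, v * (w * t)} : Set O) := by
    intro s hs x hx
    simp only [Set.mem_insert_iff, Set.mem_singleton_iff] at hs hx ⊢
    rcases hs with h | h | h <;> rcases hx with k | k | k | k | k | k | k | k <;> rw [h, k] <;>
      simp only [mul_one, hv, hw, ht, ← hvw, htv, htw, a1, a2, a3, a4, a5, a6, true_or, or_true]
  refine ⟨Subgroup.closure {v, w, t}, ?_, Subgroup.subset_closure (by simp),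
    Subgroup.subset_closure (by simp), Subgroup.subset_closure (by simp)⟩
  refine Set.Finite.subset (s := ({1, v, w, v * w, t, v * t, w * t, v * (w * t)} : Set O))
    (Set.toFinite _) fun x hx => ?_
  induction hx using Subgroup.closure_induction_left with
  | one => simp
  | mul_left s hs y _ hy => exact key s hs y hy
  | inv_mul_cancel s hs y _ hy =>
    have : s⁻¹ = s := by
      simp only [Set.mem_insert_iff, Set.mem_singleton_iff] at hs
      rcases hs with h | h | h <;> rw [h]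
      exacts [inv_eq_of_mul_eq_one_right hv, inv_eq_of_mul_eq_one_right hw,
        inv_eq_of_mul_eq_one_right ht]
    rw [this]
    exact key s hs y hy

variable {H : Type} [AddCommGroup H] [Module ℂ H]

lemma tr_nat [FiniteDimensional ℂ H] (f : End ℂ H) (h : ∀ x, f (f x) = f x) :
    LinearMap.trace ℂ H f = finrank ℂ (LinearMap.range f) :=
  (LinearMap.IsIdempotentElem.isProj_range f (LinearMap.ext h)).trace

lemma tr_conj [FiniteDimensional ℂ H] {O : Type} [Group O] (π : O →* End ℂ H) (c g : O) :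
    LinearMap.trace ℂ H (π (c * g * c⁻¹)) = LinearMap.trace ℂ H (π g) := by
  rw [map_mul, LinearMap.trace_mul_comm, ← map_mul, inv_mul_cancel_left]

lemma fx_fix {K E : Type} [Group K] [MulAction K E] {j : H →ₗ[ℂ] (E → ℂ)}
    (hj : Function.Injective j) (g : K) (f : End ℂ H) (hf : ∀ v e, j (f v) (g • e) = j v e)
    {x : H} (hx : x ∈ Fx j g) : f x = x := by
  refine hj (funext fun e' => ?_)
  obtain ⟨e, rfl⟩ : ∃ e, e' = g • e := ⟨g⁻¹ • e', (smul_inv_smul g e').symm⟩
  rw [hf]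
  by_cases h : g • e = e
  · rw [h]
  · rw [hx e h, hx (g • e) fun k => h (MulAction.injective g k)]

end H16

open H16

theorem sk1 : SK1 := by
  intro H _ _ _ O _ π Φ hE h4 h6 v w t y hv hw ht hvw htv hyv hyw hc hne
  have htw : t * w = v * t := by
    calc t * w = t * (w * t) * t := by rw [mul_assoc, mul_assoc, ht, mul_one]
      _ = v * t := by rw [← htv, ← mul_assoc, ht, one_mul]
  have ap : ∀ {a b c d : O}, a * b = c * d → ∀ x, π a (π b x) = π c (π d x) := by
    intro a b c d h x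
    rw [← End.mul_apply, ← map_mul, h, map_mul, End.mul_apply]
  have ap1 : ∀ {a b : O}, a * b = 1 → ∀ x, π a (π b x) = x := by
    intro a b h x
    rw [← End.mul_apply, ← map_mul, h, map_one, End.one_apply]
  have a1 := ap1 hv
  have a2 := ap1 hw
  have a3 := ap1 ht
  have a4 := ap hvw.symm
  have a5 := ap htv
  have a6 := ap htw
  obtain ⟨c, hc⟩ := isConj_iff.1 hc
  have cw : (y * y)⁻¹ * (v * w) * (y * y)⁻¹⁻¹ = w := by
    rw [inv_inv, mul_assoc, inv_mul_eq_iff_eq_mul, ← mul_assoc, ← hyv, mul_assoc, ← hyw, mul_assoc]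
  have cv : y⁻¹ * (v * w) * y⁻¹⁻¹ = v := by
    rw [inv_inv, mul_assoc, inv_mul_eq_iff_eq_mul, hyv]
  have ct : c⁻¹ * (v * w) * c⁻¹⁻¹ = t := by rw [← hc]; group
  obtain ⟨a, ha⟩ : ∃ a, LinearMap.trace ℂ H (π v * π w) = a := ⟨_, rfl⟩
  obtain ⟨β, hβ⟩ : ∃ β, LinearMap.trace ℂ H (π t * π v) = β := ⟨_, rfl⟩
  have tv : LinearMap.trace ℂ H (π v) = a := by
    rw [← ha, ← map_mul, ← tr_conj π y⁻¹ (v * w), cv]
  have tw : LinearMap.trace ℂ H (π w) = a := by
    rw [← ha, ← map_mul, ← tr_conj π (y * y)⁻¹ (v * w), cw]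
  have tt : LinearMap.trace ℂ H (π t) = a := by rw [← ha, ← map_mul, ← tr_conj π c⁻¹ (v * w), ct]
  have ttw : LinearMap.trace ℂ H (π t * π w) = β := by
    rw [← map_mul, htw, map_mul, LinearMap.trace_mul_comm, hβ]
  have ttvw : LinearMap.trace ℂ H (π t * π v * π w) = a := by
    rw [← tt, ← tr_conj π v t, ← map_mul, ← map_mul, inv_eq_of_mul_eq_one_right hv, ← htw,
      mul_assoc, mul_assoc, hvw]
  have t1 : LinearMap.trace ℂ H (1 : End ℂ H) = finrank ℂ H := LinearMap.trace_one ℂ H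
  have e0 := tr_nat ((1 / 8 : ℂ) • ((1 - π t) * (1 + π v) * (1 + π w))) (fun x => by
    simp [a1, a2, a3, a4, a5, a6]; module)
  have e1 := tr_nat ((1 / 8 : ℂ) • ((1 + π t) * (1 + π v) * (1 + π w))) (fun x => by
    simp [a1, a2, a3, a4, a5, a6]; module)
  have e2 := tr_nat ((1 / 4 : ℂ) • ((1 + π v) * (1 - π w))) (fun x => by
    simp [a1, a2, a4]; module)
  have e3 := tr_nat ((1 / 2 : ℂ) • (1 + π v * π w)) (fun x => by
    simp [a1, a2, a4]; module)
  have e4 : LinearMap.trace ℂ H ((1 - π t) * (1 + π v) * (1 + π w)) =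
      finrank ℂ H + a - 2 * β := by
    simp only [mul_add, add_mul, sub_mul, mul_sub, one_mul, mul_one, map_add, map_sub, ha, hβ, tv,
      tw, tt, ttw, ttvw, t1]
    ring
  have e5 : LinearMap.trace ℂ H ((1 + π t) * (1 + π v) * (1 + π w)) =
      finrank ℂ H + 5 * a + 2 * β := by
    simp only [mul_add, add_mul, one_mul, mul_one, map_add, ha, hβ, tv, tw, tt, ttw, ttvw, t1]
    ring
  have e6 : LinearMap.trace ℂ H ((1 + π v) * (1 - π w)) = finrank ℂ H - a := by
    simp only [add_mul, mul_sub, one_mul, mul_one, map_add, map_sub, ha, tv, tw, t1]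
    ring
  rw [map_smul, e4, smul_eq_mul] at e0
  rw [map_smul, e5, smul_eq_mul] at e1
  rw [map_smul, e6, smul_eq_mul] at e2
  rw [map_smul, map_add, t1, ha, smul_eq_mul] at e3
  generalize finrank ℂ (LinearMap.range
    ((1 / 8 : ℂ) • ((1 - π t) * (1 + π v) * (1 + π w)))) = n at e0
  generalize finrank ℂ (LinearMap.range
    ((1 / 8 : ℂ) • ((1 + π t) * (1 + π v) * (1 + π w)))) = n' at e1
  obtain ⟨D, hD⟩ : ∃ D, finrank ℂ (LinearMap.range ((1 / 4 : ℂ) • ((1 + π v) * (1 - π w)))) = D :=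
    ⟨_, rfl⟩
  obtain ⟨R, hR⟩ : ∃ R, LinearMap.range ((1 / 2 : ℂ) • (1 + π v * π w)) = R := ⟨_, rfl⟩
  rw [hD] at e2
  rw [hR] at e3
  have mR : ∀ x, x ∈ R ↔ π (v * w) x = x := by
    intro x
    rw [← hR, map_mul]
    constructor
    · rintro ⟨z, rfl⟩
      simp [a1, a2, a4]
      module
    · intro h
      refine ⟨x, ?_⟩
      rw [LinearMap.smul_apply, LinearMap.add_apply, h, End.one_apply]
      module
  have hvw2 : v * w * (v * w) = 1 := by
    rw [hvw, mul_assoc, ← hvw, ← mul_assoc v, hv, one_mul, hw]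
  have fo : IsOfFinOrder (v * w) :=
    isOfFinOrder_iff_pow_eq_one.2 ⟨2, two_pos, by rw [pow_two, hvw2]⟩
  have n1 : finrank ℂ H = n + n' + 3 * D := by
    have : (finrank ℂ H : ℂ) = n + n' + 3 * D := by linear_combination e0 + e1 + 3 * e2
    exact_mod_cast this
  have n2 : finrank ℂ H = finrank ℂ R + 2 * D := by
    have : (finrank ℂ H : ℂ) = finrank ℂ R + 2 * D := by linear_combination e3 + 2 * e2
    exact_mod_cast this
  have hD0 : D ≠ 0 := by
    rintro rfl
    have : R = ⊤ := Submodule.eq_top_of_finrank_eq (by omega)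
    refine hne (hE.faith _ fo (LinearMap.ext fun x => (mR x).1 ?_))
    rw [this]
    trivial
  by_cases hn : n = 0
  swap
  · have h1 : D = 1 := by omega
    rw [h1] at e2
    refine ⟨by rw [tt]; push_cast at e2; linear_combination -4 * e2, ?_⟩
    rw [e4]
    intro h
    rw [h, mul_zero] at e0
    exact hn (by exact_mod_cast e0.symm)
  exfalso
  rw [hn] at e0
  have hu : t * v * (t * v) = v * w := by
    rw [← mul_assoc, htv, mul_assoc w, ht, mul_one, hvw]
  have fu : IsOfFinOrder (t * v) :=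
    isOfFinOrder_iff_pow_eq_one.2 ⟨4, by norm_num, by
      rw [show 4 = 2 * 2 from rfl, pow_mul, pow_two, pow_two, hu, hvw2]⟩
  have hcnt := hE.cnt (t * v) (finrank ℂ R) fu (by omega) (by
    rw [map_mul, hβ]
    push_cast at e0
    linear_combination e3 - 4 * e0)
  obtain ⟨K, hK, kv, kw, kt⟩ := fin8 hv hw ht hvw htv
  obtain ⟨E, _, j, hj, hjg, hΦ⟩ := hE.edge K hK
  have hfix : ∀ g : K, ∀ x ∈ Φ g, π g x = x := fun g x hx =>
    fx_fix hj g (π g) (hjg g) (by rwa [← hΦ])
  have l1 : Φ (t * v) ≤ Φ (v * w) := by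
    have s1 := hΦ ⟨t * v, K.mul_mem kt kv⟩
    have s2 := hΦ ⟨v * w, K.mul_mem kv kw⟩
    simp only at s1 s2
    rw [s1, s2]
    intro x hx e he
    refine hx e fun k => he ?_
    have : (⟨v * w, K.mul_mem kv kw⟩ : K) = ⟨t * v, K.mul_mem kt kv⟩ * ⟨t * v, K.mul_mem kt kv⟩ :=
      Subtype.ext hu.symm
    rw [this, mul_smul, k, k]
  have l2 : Φ (v * w) ≤ R := fun x hx => (mR x).2 (hfix ⟨v * w, K.mul_mem kv kw⟩ x hx)
  have l3 : Φ (v * w) = R :=
    Submodule.eq_of_le_of_finrank_le l2 (hcnt.trans (Submodule.finrank_mono l1))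
  have l4 : ∀ (b g : O), b * (v * w) * b⁻¹ = g → ∀ x, π g x = x → x ∈ Φ g := by
    intro b g hg x hx
    have h1 : π b⁻¹ x ∈ Φ (v * w) := by
      rw [l3, mR, ap (c := b⁻¹) (d := g) (by rw [← hg]; group), hx]
    have h2 := hE.conj b _ _ h1
    rwa [hg, ap1 (mul_inv_cancel b)] at h2
  obtain ⟨z, hz, hz0⟩ := (Submodule.ne_bot_iff
    (LinearMap.range ((1 / 4 : ℂ) • ((1 + π v) * (1 - π w))))).1 (by
      intro h
      rw [h, finrank_bot] at hD
      exact hD0 hD.symm)
  have zv : π v z = z := by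
    obtain ⟨z, rfl⟩ := hz
    simp [a1]
    module
  have zw : π w z = -z := by
    obtain ⟨z, rfl⟩ := hz
    simp [a2, a4]
    module
  have m1 : π t z ∈ Φ w := l4 _ _ cw _ (by rw [← a5, zv])
  have m2 : z + π t z ∈ Φ t := l4 _ _ ct _ (by rw [map_add, a3, add_comm])
  rw [show Φ w = _ from hΦ ⟨w, kw⟩] at m1
  rw [show Φ t = _ from hΦ ⟨t, kt⟩] at m2
  obtain ⟨e, he⟩ : ∃ e, j z e ≠ 0 := by
    by_contra h
    push Not at h
    exact hz0 (hj (by rw [map_zero]; exact funext h))
  have q1 : j (π t z) e = 0 := by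
    by_contra h
    have k : (⟨w, kw⟩ : K) • e = e := by
      by_contra k
      exact h (m1 e k)
    have := hjg ⟨w, kw⟩ z e
    rw [k] at this
    simp only [zw, map_neg, Pi.neg_apply] at this
    exact he (by linear_combination (-1 / 2 : ℂ) * this)
  have k : (⟨t, kt⟩ : K) • e = e := by
    by_contra k
    have := m2 e k
    rw [map_add, Pi.add_apply, q1, add_zero] at this
    exact he this
  have := hjg ⟨t, kt⟩ z e
  rw [k] at this
  exact he (this.symm.trans q1)

end Pool.Agent.MP_3ce0a0_al.H79.Y
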